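import Mathlib
import Pool.Agent.K1H83.BD.Main7

/-!
# The elliptic Schanuel conjecture: failures in bounded degree

`L` is a pair of periods `ω₁, ω₂` (independent over `ℝ`), `L.lattice = ℤ ω₁ + ℤ ω₂ = Ω`, and
`℘[L]`, `L.g₂`, `L.g₃` are Mathlib's Weierstrass function and invariants; `k = ℚ ⊗ End(ℂ/Ω)`.

Let `K` be a subfield of `ℂ` over which `g₂` and `g₃` are algebraic, `W` a `K`-subspace of `ℂ` of finite
dimension and `F = K(W)`. Let `p₁, …, pₙ` be linearly independent over `k`. We say that the inequality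
fails for `p` (with defect greater than `t`) if `trdeg_F F(p, ℘(p), ζ(p)) < 2n - t`. The situation of the
problem, if `g₂` and `g₃` are algebraic: `K = W = F` is the field of algebraic numbers and `t = 0`. For arbitrary
lattices: `K = W = F` is the algebraic closure of `ℚ(g₂, g₃)`, and `t` is the transcendence degree of this
field. We allow also `p_i ∈ Ω`, with `ζ` extended to `Ω` by the quasi-periods; since the algebraic closure of
the field does not change if `p_i` is replaced by `p_i / N`, this is no generalization of the problem, but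
convenient.

The inequality fails for `p` in degree `δ` if any `2n - t` of the `3n` numbers `p`, `℘(p)`, `ζ(p)` satisfy a
nontrivial polynomial relation of degree at most `δ` with coefficients in `W`. Every failure is a failure in
some degree, for `W = F` (`fails_iff`).

Let `A` be a matrix of endomorphisms with `e` rows, which are independent over `k`. If
`trdeg_F F(p, ℘(A p), ζ(A p)) < 2e - t` then we say that the inequality fails for `p` through `A`. In this case
it fails for `p` and for the tuple `A p` (`Through.fails`, `Through.fails_comb`). The theorem says that all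
failures of degree at most `δ` in a rational vector space `V` of finite dimension are of this shape for
finitely many matrices `A`, and that only finitely many tuples `A p` occur, modulo elliptic logarithms of
points over the algebraic closure of `K`. In particular, there are only finitely many classes of minimal
failures in `V`, in degree `δ`, modulo such logarithms; minimal means that the inequality is true for all
shorter tuples of `k`-linear combinations of the numbers `p₁, …, pₙ`.

The proof. Suppose that `p^(k)` is a sequence of failures of degree at most `δ`. The vectors `a` in `kⁿ` such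
that `a p^(k)` is constant modulo logarithms of algebraic points, for almost all `k` with respect to an
ultrafilter, form a space with a basis `A`, and we complete it to a basis of `kⁿ` by unit vectors `e_j`,
`j ∈ J`. By the theorem of the module `Pool.Agent.K1H83.BD.Seq2` (logarithmic differential forms of the elliptic
curve and of its universal vector extension on an ultraproduct; the theorem of Ax in a nonstandard situation)
the ultraproducts of the numbers `℘(p_j)`, `ζ(p_j)`, `j ∈ J`, are algebraically independent over a field which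
contains the ultraproducts of the numbers `p`, `℘(A p)` and `ζ(A p)`. For the last assertion the addition
theorems are used, and for `ζ(A p)` also the fact that the logarithms of algebraic points in `V` are
rational combinations of finitely many of them. Hence the defect comes from the numbers `p`, `℘(A p)`,
`ζ(A p)`; here the behaviour of `℘` and `ζ` under complex multiplication is needed.
-/

set_option autoImplicit false

open Module
open scoped PeriodPair

namespace Pool.Agent.Results.MP_2ad15a_nt.BoundedDegreeFailures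

/-- The Weierstrass zeta function `ζ(z) = ∑ (1/(z-l) + 1/l + z/l²)`, the sum over the lattice (the
summand of `l = 0` is `1/z`, since `1/0 = 0` in Lean). -/
noncomputable def ζ (L : PeriodPair) (z : ℂ) : ℂ :=
  ∑' l : L.lattice, (1 / (z - l) + 1 / l + z / l ^ 2)

open Classical in
/-- `ζ`, extended to the lattice by the quasi-periods `η(l) = ζ(ω₁/2 + l) - ζ(ω₁/2)` -/
noncomputable def ζ' (L : PeriodPair) (z : ℂ) : ℂ :=
  if z ∈ L.lattice then ζ L (L.ω₁ / 2 + z) - ζ L (L.ω₁ / 2) else ζ L z

/-- the field `k = ℚ ⊗ End(ℂ / Ω)` as a subfield of `ℂ`; see `mem_k` -/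
noncomputable abbrev k (L : PeriodPair) : IntermediateField ℚ ℂ := Pool.Agent.TH813.Ell.kL L

/-- `k` consists of the numbers `c` such that `n c` maps the lattice to itself for some `n > 0` -/
theorem mem_k {L : PeriodPair} {c : ℂ} :
    c ∈ k L ↔ ∃ n : ℕ, 0 < n ∧ ∀ w ∈ L.lattice, (n * c) * w ∈ L.lattice := Iff.rfl

/-- `v` is an elliptic logarithm of a point whose coordinates are algebraic over the field `K` -/
def IsLog (L : PeriodPair) (K : IntermediateField ℚ ℂ) (v : ℂ) : Prop :=
  v ∈ L.lattice ∨ IsAlgebraic K (℘[L] v)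

/-- the `3n` numbers `p`, `℘(p)`, `ζ(p)` -/
noncomputable def nums (L : PeriodPair) {n : ℕ} (p : Fin n → ℂ) : Fin n ⊕ (Fin n ⊕ Fin n) → ℂ :=
  Sum.elim p (Sum.elim (fun i => ℘[L] (p i)) (fun i => ζ' L (p i)))

/-- The inequality fails, with defect greater than `t`, for the numbers `p₁, …, pₙ`: they are independent over
`k` and `trdeg_F F(p, ℘(p), ζ(p)) < 2n - t`. -/
def Fails (L : PeriodPair) (F : IntermediateField ℚ ℂ) (t : ℕ) {n : ℕ} (p : Fin n → ℂ) : Prop :=
  LinearIndependent (k L) p ∧ Algebra.trdeg F (IntermediateField.adjoin F (Set.range (nums L p))) <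
    ((2 * n - t : ℕ) : Cardinal)

/-- The inequality fails in degree `δ`: the numbers `p₁, …, pₙ` are independent over `k`, and any `2n - t` of the
`3n` numbers `p`, `℘(p)`, `ζ(p)` satisfy a nontrivial relation of degree at most `δ` with coefficients in
`W`. -/
def FailsInDegree (L : PeriodPair) (W : Set ℂ) (t δ : ℕ) {n : ℕ} (p : Fin n → ℂ) : Prop :=
  LinearIndependent (k L) p ∧
    ∀ f : Fin (2 * n - t) → Fin n ⊕ (Fin n ⊕ Fin n), Function.Injective f →
      ∃ P : MvPolynomial (Fin (2 * n - t)) ℂ, P ≠ 0 ∧ P.totalDegree ≤ δ ∧ (∀ μ, P.coeff μ ∈ W) ∧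
        MvPolynomial.eval (fun i => nums L p (f i)) P = 0

/-- `A` is a matrix of endomorphisms of `ℂ/Ω` and its rows are independent over `k` -/
def IsHom (L : PeriodPair) {e n : ℕ} (A : Fin e → Fin n → ℂ) : Prop :=
  (∀ i j, ∀ w ∈ L.lattice, A i j * w ∈ L.lattice) ∧ LinearIndependent (k L) A

/-- the tuple `A p` -/
noncomputable def comb {e n : ℕ} (A : Fin e → Fin n → ℂ) (p : Fin n → ℂ) : Fin e → ℂ :=
  fun i => ∑ j, A i j * p j

/-- The inequality fails for `p` through the matrix `A` with `e` rows: the numbers `p` are independent over `k`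
and `trdeg_F F(p, ℘(A p), ζ(A p)) < 2e - t`. -/
def Through (L : PeriodPair) (F : IntermediateField ℚ ℂ) (t : ℕ) {e n : ℕ} (A : Fin e → Fin n → ℂ)
    (p : Fin n → ℂ) : Prop :=
  LinearIndependent (k L) p ∧ Algebra.trdeg F (IntermediateField.adjoin F (Set.range
    (Sum.elim p (Sum.elim (fun i => ℘[L] (comb A p i)) (fun i => ζ' L (comb A p i)))))) <
      ((2 * e - t : ℕ) : Cardinal)

/-- `p` is a minimal failure: the inequality fails for `p`, but for no shorter tuple `A p`, `A` a matrix of
endomorphisms with independent rows. -/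
def Minimal (L : PeriodPair) (F : IntermediateField ℚ ℂ) (t : ℕ) {n : ℕ} (p : Fin n → ℂ) : Prop :=
  Fails L F t p ∧ ∀ (e : ℕ) (A : Fin e → Fin n → ℂ), IsHom L A → e < n → ¬ Fails L F t (comb A p)

/-- the field `K(W)` -/
noncomputable def field (K : IntermediateField ℚ ℂ) (W : Submodule K ℂ) : IntermediateField ℚ ℂ :=
  IntermediateField.adjoin ℚ ((K : Set ℂ) ∪ (W : Set ℂ))

section aux

open Pool.Agent.K1H83.BD

variable {L : PeriodPair} {e n : ℕ}

theorem zt_eq (z : ℂ) : Pool.Agent.W245.EB.zt L z = ζ' L z := by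
  classical
  unfold ζ' Pool.Agent.W245.EB.zt
  by_cases h : z ∈ L.lattice
  · rw [if_pos h, if_pos h]
    rfl
  · rw [if_neg h, if_neg h]
    rfl

theorem zZ_eq (p : Fin n → ℂ) : zZ L p = nums L p := by
  unfold zZ nums
  simp only [zt_eq]

/-- the matrix with entries in `ℂ` -/
noncomputable def toC (a : Fin e → Fin n → k L) : Fin e → Fin n → ℂ := fun i j => (a i j : ℂ)

theorem zW_eq (a : Fin e → Fin n → k L) (p : Fin n → ℂ) : zW a p =
    Sum.elim p (Sum.elim (fun i => ℘[L] (comb (toC a) p i)) (fun i => ζ' L (comb (toC a) p i))) := by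
  unfold zW
  simp only [zt_eq]
  rfl

theorem toC_isHom {a : Fin e → Fin n → k L} (ha : GdZ a) : IsHom L (toC a) := by
  refine ⟨ha.1, ?_⟩
  rw [Fintype.linearIndependent_iff]
  intro g hg i
  refine (Fintype.linearIndependent_iff.1 ha.2) g ?_ i
  funext j
  refine Subtype.ext ?_
  have h2 := congrFun hg j
  simp only [Finset.sum_apply, Pi.smul_apply, Pi.zero_apply] at h2 ⊢
  push_cast
  exact h2

theorem exists_lift {A : Fin e → Fin n → ℂ} (hA : IsHom L A) :
    ∃ a : Fin e → Fin n → k L, GdZ a ∧ toC a = A := by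
  refine ⟨fun i j => ⟨A i j, Pool.Agent.TH813.Ell.mult_mem_kL (hA.1 i j)⟩, ⟨hA.1, ?_⟩, rfl⟩
  rw [Fintype.linearIndependent_iff]
  intro g hg i
  refine (Fintype.linearIndependent_iff.1 hA.2) g ?_ i
  funext j
  have h2 := congrArg (fun z : k L => (z : ℂ)) (congrFun hg j)
  simp only [Finset.sum_apply, Pi.smul_apply, Pi.zero_apply] at h2 ⊢
  push_cast at h2
  exact h2

end aux

variable {L : PeriodPair} {e n : ℕ}

/-- Every failure is a failure in some degree, and conversely. -/
theorem fails_iff (F : IntermediateField ℚ ℂ) (t : ℕ) (p : Fin n → ℂ) :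
    Fails L F t p ↔ ∃ δ, FailsInDegree L (F : Set ℂ) t δ p := by
  classical
  have h := Pool.Agent.K1H83.BD.rk_iff_rel F (nums L p) (2 * n - t)
  constructor
  · rintro ⟨h1, h2⟩
    rw [Pool.Agent.TH813.Rel.lt_iff] at h2
    obtain ⟨δ, hδ⟩ := h.1 h2
    exact ⟨δ, h1, hδ⟩
  · rintro ⟨δ, h1, hδ⟩
    refine ⟨h1, ?_⟩
    rw [Pool.Agent.TH813.Rel.lt_iff]
    exact h.2 ⟨δ, hδ⟩

/-- If the inequality fails for `p` through `A` then it fails for `p`. -/
theorem Through.fails {F : IntermediateField ℚ ℂ} (h2 : IsAlgebraic F L.g₂)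
    (h3 : IsAlgebraic F L.g₃) {t : ℕ} {A : Fin e → Fin n → ℂ} (hA : IsHom L A) {p : Fin n → ℂ}
    (h : Through L F t A p) : Fails L F t p := by
  obtain ⟨a, ha, rfl⟩ := exists_lift hA
  refine ⟨h.1, ?_⟩
  rw [← zZ_eq]
  refine Pool.Agent.K1H83.BD.ThrZ.fails h2 h3 (a := a) ha.2 ?_
  unfold Pool.Agent.K1H83.BD.ThrZ
  rw [zW_eq]
  exact h.2

/-- If the inequality fails for `p` through `A` then it fails for `A p`. -/
theorem Through.fails_comb {F : IntermediateField ℚ ℂ} {t : ℕ} {A : Fin e → Fin n → ℂ}
    (hA : IsHom L A) {p : Fin n → ℂ} (h : Through L F t A p) : Fails L F t (comb A p) := by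
  obtain ⟨a, ha, rfl⟩ := exists_lift hA
  refine ⟨Pool.Agent.K1H83.BD.apk_indep ha.2 h.1, ?_⟩
  rw [← zZ_eq]
  refine Pool.Agent.K1H83.BD.ThrZ.defect (a := a) ?_
  unfold Pool.Agent.K1H83.BD.ThrZ
  rw [zW_eq]
  exact h.2

/-- Let `Ω` be a lattice, `K` a subfield of `ℂ` over which `g₂` and `g₃` are algebraic, `W` a `K`-subspace of
`ℂ` of finite dimension, `F = K(W)`, `V` a rational subspace of `ℂ` of finite dimension, and `n`, `t`, `δ`
natural numbers.

(1) There is a finite set of pairs `(A, s)`, where `A` is a matrix of endomorphisms with `n` columns and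
independent rows and `s` a tuple of `n` elements of `V` for which the inequality fails through `A`, such that
for all `p₁, …, pₙ` in `V` for which the inequality fails in degree `δ` (with coefficients in `W`) the
following is true for one of the pairs `(A, s)`: the inequality fails for `p` through `A`, i.e.
`trdeg_F F(p, ℘(A p), ζ(A p)) < 2e - t`, `e` the number of rows of `A`, and the numbers
`(A p)ᵢ - (A s)ᵢ` are elliptic logarithms of points over the algebraic closure of `K`.

(2) There is a finite set `T` of `n`-tuples of elements of `V` such that for all minimal failures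
`p₁, …, pₙ` in `V` for which the inequality fails in degree `δ`, and for some `s` in `T`, the numbers
`pᵢ - sᵢ` are elliptic logarithms of points over the algebraic closure of `K`. -/
theorem result (L : PeriodPair) (K : IntermediateField ℚ ℂ) (h2 : IsAlgebraic K L.g₂)
    (h3 : IsAlgebraic K L.g₃) (W : Submodule K ℂ) (hW : FiniteDimensional K W) (V : Submodule ℚ ℂ)
    (hV : FiniteDimensional ℚ V) (n t δ : ℕ) :
    (∃ Φ : Set (Σ e : ℕ, (Fin e → Fin n → ℂ) × (Fin n → ℂ)), Φ.Finite ∧
      (∀ φ ∈ Φ, IsHom L φ.2.1 ∧ (∀ i, φ.2.2 i ∈ V) ∧ Through L (field K W) t φ.2.1 φ.2.2) ∧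
      ∀ p : Fin n → ℂ, (∀ i, p i ∈ V) → FailsInDegree L (W : Set ℂ) t δ p →
        ∃ φ ∈ Φ, Through L (field K W) t φ.2.1 p ∧
          ∀ i, IsLog L K (comb φ.2.1 p i - comb φ.2.1 φ.2.2 i)) ∧
    ∃ T : Set (Fin n → ℂ), T.Finite ∧ (∀ s ∈ T, ∀ i, s i ∈ V) ∧
      ∀ p : Fin n → ℂ, (∀ i, p i ∈ V) → FailsInDegree L (W : Set ℂ) t δ p →
        Minimal L (field K W) t p → ∃ s ∈ T, ∀ i, IsLog L K (p i - s i) := by
  classical
  obtain ⟨Φ, hΦ, h4, h5⟩ := Pool.Agent.K1H83.BD.main7 K L h2 h3 V W δ n t
  have hthr : ∀ {e : ℕ} {a : Fin e → Fin n → k L} {p : Fin n → ℂ}, LinearIndependent (k L) p →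
      Pool.Agent.K1H83.BD.ThrZ (field K W) t a p → Through L (field K W) t (toC a) p := by
    intro e a p hp h
    refine ⟨hp, ?_⟩
    unfold Pool.Agent.K1H83.BD.ThrZ at h
    rw [zW_eq] at h
    exact h
  have hrel : ∀ {p : Fin n → ℂ}, FailsInDegree L (W : Set ℂ) t δ p →
      ∀ f : Fin (2 * n - t) → Fin n ⊕ (Fin n ⊕ Fin n), Function.Injective f →
        Pool.Agent.K1H83.BD.Rel (W : Set ℂ) δ (fun i => Pool.Agent.K1H83.BD.zZ L p (f i)) := by
    intro p hp f hf
    rw [zZ_eq]
    exact hp.2 f hf
  refine ⟨?_, ?_⟩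
  · let g : (Σ e : ℕ, (Fin e → Fin n → k L) × (Fin n → ℂ)) →
        Σ e : ℕ, (Fin e → Fin n → ℂ) × (Fin n → ℂ) := fun φ => ⟨φ.1, toC φ.2.1, φ.2.2⟩
    refine ⟨g '' Φ, hΦ.image g, ?_, fun p hp hf => ?_⟩
    · rintro _ ⟨φ, hφ, rfl⟩
      obtain ⟨a1, a2, a3, a4⟩ := h4 φ hφ
      exact ⟨toC_isHom a1, a2, hthr a3 a4⟩
    · obtain ⟨φ, hφ, a1, a2⟩ := h5 p hp hf.1 (hrel hf)
      exact ⟨g φ, ⟨φ, hφ, rfl⟩, hthr hf.1 a1, a2⟩
  · refine ⟨(fun φ => φ.2.2) '' Φ, hΦ.image _, ?_, fun p hp hf hmin => ?_⟩
    · rintro _ ⟨φ, hφ, rfl⟩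
      exact (h4 φ hφ).2.1
    · obtain ⟨φ, hφ, a1, a2⟩ := h5 p hp hf.1 (hrel hf)
      have a3 := (h4 φ hφ).1
      have a4 : φ.1 ≤ n := by
        have := a3.2.fintype_card_le_finrank
        rwa [Fintype.card_fin, finrank_fintype_fun_eq_card, Fintype.card_fin] at this
      have a5 : φ.1 = n := by
        refine le_antisymm a4 (not_lt.1 fun hlt => ?_)
        exact hmin.2 _ _ (toC_isHom a3) hlt ((hthr hf.1 a1).fails_comb (toC_isHom a3))
      exact ⟨φ.2.2, ⟨φ, hφ, rfl⟩, Pool.Agent.K1H83.BD.logs_of_sqZ h2 h3 a3.2 a5 a2⟩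

end Pool.Agent.Results.MP_2ad15a_nt.BoundedDegreeFailures
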