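import Mathlib
import Pool.Agent.K1H83.BD.Free

/-!
# The elliptic Schanuel conjecture in bounded degree

`L` is a pair of periods `ω₁, ω₂` (independent over `ℝ`), `L.lattice = ℤ ω₁ + ℤ ω₂ = Ω`, and
`℘[L]`, `L.g₂`, `L.g₃` are Mathlib's Weierstrass function and invariants.

The theorem: let `V` be a rational vector space of finite dimension in `ℂ` and let a degree `δ` and
constants `w₁, …, w_t` be given. The tuples `p₁, …, pₙ` of elements of `V` such that some algebraic
relation of degree at most `δ` between `w, p, ℘(p), ζ(p)` is not an identity in the `2n` numbers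
`℘(p), ζ(p)` are contained in finitely many families of a simple shape: modulo elliptic logarithms of
algebraic points, finitely many translates of proper subspaces.

The proof: if there are sequences of tuples in `V` which escape all these families, then an
ultraproduct of the relations gives an algebraic relation of a field of transcendental numbers over an
internal field. The logarithmic forms of the elliptic curve `E` and of its universal vector extension
(the theory of Ax, in the form of differential forms) show that some combination of the tuples is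
constant modulo logarithms of algebraic points; that there are only finitely many constants follows
from the countability of the field generated by `K` and the values at a basis of `V`.
-/

set_option autoImplicit false

open scoped PeriodPair

namespace Pool.Agent.Results.MP_2ad15a_nt.BoundedDegreeRelations

/-- The Weierstrass zeta function `ζ(z) = ∑ (1/(z-l) + 1/l + z/l²)`, the sum over the lattice (the
summand of `l = 0` is `1/z`, since `1/0 = 0` in Lean). -/
noncomputable def ζ (L : PeriodPair) (z : ℂ) : ℂ :=
  ∑' l : L.lattice, (1 / (z - l) + 1 / l + z / l ^ 2)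

/-- the field `k = ℚ ⊗ End(ℂ / Ω)` as a subfield of `ℂ`; see `mem_k` -/
noncomputable abbrev k (L : PeriodPair) : IntermediateField ℚ ℂ := Pool.Agent.TH813.Ell.kL L

/-- `k` consists of the numbers `c` such that `n c` maps the lattice to itself for some `n > 0` -/
theorem mem_k {L : PeriodPair} {c : ℂ} :
    c ∈ k L ↔ ∃ n : ℕ, 0 < n ∧ ∀ w ∈ L.lattice, (n * c) * w ∈ L.lattice := Iff.rfl

/-- `v` is an elliptic logarithm of a point whose coordinates are algebraic over the field `K` -/
def IsLog (L : PeriodPair) (K : IntermediateField ℚ ℂ) (v : ℂ) : Prop :=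
  v ∈ L.lattice ∨ IsAlgebraic K (℘[L] v)

/-- Every relation of degree at most `δ`, with coefficients algebraic over `K`, between the constants
`w`, the `n` numbers `p` and the `2 n` numbers `℘(p)`, `ζ(p)` is an identity in the latter: it stays
true if they are replaced by arbitrary numbers. -/
def Free (L : PeriodPair) (K : IntermediateField ℚ ℂ) (δ : ℕ) {t n : ℕ} (w : Fin t → ℂ)
    (p : Fin n → ℂ) : Prop :=
  ∀ P : MvPolynomial ((Fin t ⊕ Fin n) ⊕ (Fin n ⊕ Fin n)) ℂ, P.totalDegree ≤ δ →
    (∀ μ, IsAlgebraic K (P.coeff μ)) →
    MvPolynomial.eval (Sum.elim (Sum.elim w p)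
      (Sum.elim (fun j => ℘[L] (p j)) (fun j => ζ L (p j)))) P = 0 →
    ∀ y : Fin n ⊕ Fin n → ℂ, MvPolynomial.eval (Sum.elim (Sum.elim w p) y) P = 0

open Pool.Agent.K1H83.BD in
/-- Let `Ω` be a lattice, `K` a subfield of `ℂ` such that `g₂` and `g₃` are algebraic over `K`, `V` a
rational subspace of `ℂ` of finite dimension, `w₁, …, w_t` complex numbers, and `n`, `δ` natural
numbers. There are finitely many pairs `(a, s)`, where `a ∈ kⁿ` is not zero and `s ∈ Vⁿ`, such that
for all `p₁, …, pₙ` in `V`, not in `Ω`, for which no number `∑ aⱼ (pⱼ - sⱼ)` is an elliptic logarithm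
of a point over the algebraic closure of `K`: every relation of degree at most `δ`, with coefficients
algebraic over `K`, between the numbers `wᵢ, pⱼ, ℘(pⱼ), ζ(pⱼ)` is an identity in the `2 n` numbers
`℘(pⱼ), ζ(pⱼ)`. -/
theorem result (L : PeriodPair) (K : IntermediateField ℚ ℂ) (h2 : IsAlgebraic K L.g₂)
    (h3 : IsAlgebraic K L.g₃) (V : Submodule ℚ ℂ) (hV : FiniteDimensional ℚ V) (n t δ : ℕ)
    (w : Fin t → ℂ) :
    ∃ S : Finset ((Fin n → ℂ) × (Fin n → ℂ)),
      (∀ s ∈ S, s.1 ≠ 0 ∧ (∀ j, s.1 j ∈ k L) ∧ ∀ j, s.2 j ∈ V) ∧
      ∀ p : Fin n → ℂ, (∀ j, p j ∈ V) → (∀ j, p j ∉ L.lattice) →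
        (∀ s ∈ S, ¬ IsLog L K (∑ j, s.1 j * (p j - s.2 j))) → Free L K δ w p := by
  obtain ⟨S, S', hS, hS', hm⟩ := main_free K (q := 1) (fun _ => L) (fun _ => h2) (fun _ => h3)
    (fun c c' hc => absurd (Subsingleton.elim c c') hc) V w δ (m := 0) (n := n) (fun _ => 0)
  refine ⟨S' 0, fun s hs => ?_, fun p hp hl hno P hP hPK h0 y => ?_⟩
  · obtain ⟨e1, e2, -, e4⟩ := hS' 0 s hs
    exact ⟨e1, e2, e4⟩
  · have hz : ∀ j, Pool.Agent.W245.EB.zt L (p j) = ζ L (p j) := fun j =>
      Pool.Agent.W245.EB.zt_of_notMem (hl j)
    rcases hm (fun i => i.elim0) p (fun i => i.elim0) hp hl with ⟨s, hs, -⟩ | ⟨c, s, hs, h⟩ | h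
    · exact absurd (funext fun i => i.elim0) (hS s hs).1
    · rw [Subsingleton.elim c 0] at hs
      exact absurd h (hno s hs)
    · -- rename the variables
      let f : (Fin t ⊕ Fin n) ⊕ (Fin n ⊕ Fin n) →
          (Fin t ⊕ (Fin 0 ⊕ Fin n)) ⊕ (Fin 0 ⊕ (Fin n ⊕ Fin n)) :=
        Sum.map (Sum.map id Sum.inr) Sum.inr
      have hf : Function.Injective f :=
        Function.Injective.sumMap (Function.Injective.sumMap Function.injective_id
          Sum.inr_injective) Sum.inr_injective
      have e1 := h (MvPolynomial.rename f P) ((MvPolynomial.totalDegree_rename_le _ _).trans hP)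
        (fun μ => by
          by_cases hμ : MvPolynomial.coeff μ (MvPolynomial.rename f P) = 0
          · rw [hμ]
            exact isAlgebraic_zero
          · obtain ⟨ν, rfl, -⟩ := MvPolynomial.coeff_rename_ne_zero _ _ _ hμ
            rw [MvPolynomial.coeff_rename_mapDomain f hf]
            exact hPK ν)
        (by
          rw [MvPolynomial.eval_rename]
          refine Eq.trans ?_ h0
          congr 2
          funext i
          rcases i with (i | i) | (i | i)
          · rfl
          · rfl
          · rfl
          · exact hz i)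
        (Sum.elim (fun i => i.elim0) y)
      rw [MvPolynomial.eval_rename] at e1
      refine Eq.trans ?_ e1
      congr 2
      funext i
      rcases i with (i | i) | (i | i)
      · rfl
      · rfl
      · rfl
      · rfl

end Pool.Agent.Results.MP_2ad15a_nt.BoundedDegreeRelations
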